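import Pool.Agent.X97.RH.Model

/-!
# `RRT²₂` does not imply `HT^{=2}₂` over `RCA₀`

There is an `ω`-model of `RCA₀` (a Turing ideal `M`) in which the rainbow Ramsey theorem for pairs
`RRT²₂` holds and Hindman's theorem for sums of exactly two elements and two colours `HT^{=2}₂`
fails.  This answers Q1 of MP_6fabb2_lc in the negative (and gives `HT^{=2}₂ ≰_ω RRT²₂`, hence
`HT^{=2}₂ ≰_c RRT²₂` and `HT^{=2}₂ ≰_W RRT²₂`).

Idea of the proof.

* `RRT²₂` is solved by random oracles (`Pool.Agent.X97.RH.RRT`; compare Csima and Mileti).  Let
  `X y`, `y ∈ ℕ`, be independent with `P(X y ≥ n) = 2^{-n}`.  Put `y` into the rainbow set when it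
  keeps the set `F` built so far rainbow and `X y ≥ |F| + k`.  With probability `≥ 1 - 2^{-k}` this
  gives an infinite set: along a free ultrafilter every `x` has at most one partner `x'`
  (`f(x,y) = f(x',y)` for almost all `y`), and the process can only get stuck when it chooses a
  partner of an earlier element.
* There is `c : ℕ → {0,1}` such that almost no `X` computes (with `c` and any given oracles) an
  infinite set with monochromatic pair sums (`Pool.Agent.X97.RH.Force`).  The colour of `x` tells
  in which half of the circle the phase `θ_x = β_0 + ... + β_{x-1}` lies, where the steps `β_j`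
  converge.  When a functional gives, for most `X`, three elements `a < b < d` of its set, far from
  each other, then there is a rotation number `α` near the present one such that for a fixed
  proportion of these `X` the points `aα, bα, dα` are near `t, t + 1/3, t + 2/3`.  Keeping all
  further steps very close to `α` makes sure that `c(y+a), c(y+b), c(y+d)` are never equal for
  large `y`.  By density, almost no `X` computes a solution.
* The model is the ideal generated by `c`, two auxiliary functions and a suitable sequence of
  random oracles; Fubini's theorem keeps the second property.
-/

namespace Pool.Agent.Results.MP_6fabb2_lc.OmegaModel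

open X97.RH

theorem result : ∃ M : Set (ℕ → ℕ), IsTuringIdeal M ∧ RRT22 M ∧ ¬ HT22 M := X97.RH.main

end Pool.Agent.Results.MP_6fabb2_lc.OmegaModel
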